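import Pool.Agent.H7.KSAT.SLPt

/-!
# Fullness with a total deficit, spanning given the point

Section Q2 of K3_QQ, Theorem F: with the same block of `2 g` digits of the direction and nested
labels `b r` of the windows of length `2 ^ (-(w + r g))`, the deficits of fullness of the rows
`(w + (r + 1) g, w + (r + 2) g]` have a sum bounded by twice the entropy of the block (up to
bounded errors in every window), whatever the number of windows. Nonconcentration of the
directions on planes of dimension `k` is used only given the label and the point.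
-/

set_option autoImplicit false

namespace Pool.KSAT

open Finset Real
open Pool.Agent.H49.Ent Pool.Agent.H32.Dense Pool.STK Pool.KA

open Classical in
/-- Fullness with a total deficit, in the class of families of lines. -/
def FULPStmt : Prop :=
  ∀ m k : ℕ, ∃ C : ℝ, 0 ≤ C ∧ ∀ (J : ℕ) (F : Fam m J) (β Pt : ℕ → Type)
    (b : ∀ r, F.Ω → β r) (pt : ∀ r, F.Ω → Pt r) (w g h R : ℕ) (e ρ c : ℝ),
    w + (R + 1) * g ≤ J → F.Tm e →
    (∀ r < R, ∀ ω ω', 0 < F.p ω → 0 < F.p ω' →
      slam F (w + r * g) ω = slam F (w + r * g) ω' → b r ω = b r ω') →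
    (∀ r < R, ∀ ω ω', 0 < F.p ω → 0 < F.p ω' → pt r ω = pt r ω' →
      F.T1 (w + r * g + 2 * g) ω = F.T1 (w + r * g + 2 * g) ω' ∧
      F.X (w + r * g + 2 * g) ω = F.X (w + r * g + 2 * g) ω') →
    2 ≤ h → (h + 3) * (k + 1) + h ≤ g →
    (∀ r < R, ∀ ω, 0 < F.p ω → ∀ (v : Fin m → ℝ) (B : Fin k → Fin m → ℝ),
      (∑ ω', if ∃ c : Fin k → ℝ, ∀ j, |F.d ω' j - v j - ∑ i, c i * B i j| ≤ 4 / 2 ^ h
        then cond F.p (fun ω => (b r ω, pt r ω)) (b r ω, pt r ω) ω' else 0) ≤ ρ) →
    (∀ r < R, CH F.p (fun ω => (b r ω, pt r ω)) (b (r + 2)) ≤ c) →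
    ∑ r ∈ Finset.range R, ((k + 1) * (g * Real.log 2) -
        CH F.p (F.X (w + r * g + 2 * g)) (fun ω => (F.T1 (w + r * g + 2 * g) ω,
          F.X (w + r * g + g) ω, b r ω))) ≤
      (k + 2) * (CH F.p (F.D (2 * g)) (b 0) + CH F.p (F.D (2 * g)) (b 1)) +
        R * ((k + 2) * (e + c) + (k + 2) ^ 2 * (g * Real.log 2) * ρ + C)

lemma sum_two' (h : ℕ → ℝ) (R : ℕ) :
    ∑ r ∈ Finset.range R, (h r - h (r + 2)) = h 0 + h 1 - h R - h (R + 1) := by
  induction R with
  | zero => simp
  | succ R ih =>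
    rw [Finset.sum_range_succ, ih]
    ring

theorem fulp_thm (hS : SLPtStmt) : FULPStmt := by
  intro m k
  obtain ⟨C, hC, hs⟩ := hS m k
  refine ⟨C, hC, ?_⟩
  intro J F β Pt b pt w g h R e ρ c hJ hT hb hpt hh hg hnc hch
  have h0 := F.isLaw.nonneg
  set f : ℕ → ℝ := fun r => CH F.p (F.D (2 * g)) (b r) with hf
  have key : ∀ r ∈ Finset.range R, ((k + 1) * (g * Real.log 2) -
        CH F.p (F.X (w + r * g + 2 * g)) (fun ω => (F.T1 (w + r * g + 2 * g) ω,
          F.X (w + r * g + g) ω, b r ω))) ≤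
      (k + 2) * (f r - f (r + 2)) +
        ((k + 2) * (e + c) + (k + 2) ^ 2 * (g * Real.log 2) * ρ + C) := by
    intro r hr
    have hrR := Finset.mem_range.mp hr
    have hle : w + r * g + 2 * g ≤ J := by
      refine le_trans ?_ hJ
      have : r * g + 2 * g ≤ (R + 1) * g := by
        have h1 : (r + 2) * g ≤ (R + 1) * g := Nat.mul_le_mul_right g (by omega)
        linarith [Nat.add_mul r 2 g]
      omega
    have h1 := hs J F (β r) (Pt r) (b r) (pt r) (w + r * g) (2 * g) g h e ρ hle hT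
      (hb r hrR) (hpt r hrR) hh (by omega) (hnc r hrR)
    have h2 : w + r * g + 2 * g - g = w + r * g + g := by omega
    rw [h2] at h1
    -- the information
    have h3 : f (r + 2) ≤ CH F.p (F.D (2 * g)) (fun ω => (b r ω, pt r ω)) + c := by
      have c1 := CH_chain h0 (F.D (2 * g)) (fun ω => (b r ω, pt r ω)) (b (r + 2))
      have c2 := CH_mono_left h0 (X := F.D (2 * g))
        (X' := fun ω => (F.D (2 * g) ω, (b r ω, pt r ω))) (W := b (r + 2))
        (fun _ _ _ _ h => by
          simp only [Prod.mk.injEq] at h ⊢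
          exact h.1.1)
      have c3 := CH_mono_cond h0 (X := F.D (2 * g))
        (W := fun ω => (b r ω, pt r ω)) (W' := fun ω => ((b r ω, pt r ω), b (r + 2) ω))
        (fun _ _ _ _ h => (Prod.ext_iff.mp h).1)
      have c4 := hch r hrR
      simp only [hf]
      linarith
    simp only [hf] at h3 ⊢
    have hk : (0 : ℝ) ≤ (k : ℝ) + 2 := by positivity
    have h4 := mul_le_mul_of_nonneg_left h3 hk
    nlinarith [h1, h4]
  refine (Finset.sum_le_sum key).trans ?_
  rw [Finset.sum_add_distrib, ← Finset.mul_sum, sum_two' f R, Finset.sum_const,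
    Finset.card_range, nsmul_eq_mul]
  have e1 : 0 ≤ f R := CH_nonneg h0 _ _
  have e2 : 0 ≤ f (R + 1) := CH_nonneg h0 _ _
  have hk : (0 : ℝ) ≤ (k : ℝ) + 2 := by positivity
  have e3 := mul_nonneg hk e1
  have e4 := mul_nonneg hk e2
  simp only [hf] at e3 e4 ⊢
  nlinarith [e3, e4]

/-- Fullness with a total deficit. -/
theorem fulp : FULPStmt := fulp_thm slPt

end Pool.KSAT
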